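import Mathlib
import Pool.Agent.Helper8.Classify.Joint
import Pool.Agent.Helper8.Transfer.Defs

/-!
# Exact relations on a sparse set of primes
-/

namespace Pool.Agent.Helper8.Classify

open Finset Filter Topology Pool.Agent.Helper8.Dilation Pool.Agent.Helper8.Order
  Pool.Agent.Helper8.Transfer

/-- the completely multiplicative function with `p ↦ - σ p` -/
noncomputable def exTau (σ : ℕ → ℝ) (n : ℕ) : ℝ :=
  n.factorization.prod (fun p e => (- σ p) ^ e)

theorem exTau_mul (σ : ℕ → ℝ) (p : ℕ) (hp : p.Prime) (n : ℕ) (hn : 1 ≤ n) :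
    exTau σ (p * n) = - σ p * exTau σ n := by
  unfold exTau
  rw [Nat.factorization_mul hp.ne_zero (by omega), Finsupp.prod_add_index']
  · rw [hp.factorization, Finsupp.prod_single_index] <;> simp
  · intro a; simp
  · intro a b c; rw [pow_add]

theorem exTau_pm (σ : ℕ → ℝ) (hσ : ∀ p, σ p = 1 ∨ σ p = -1) (n : ℕ) :
    exTau σ n = 1 ∨ exTau σ n = -1 := by
  unfold exTau
  apply Finset.prod_induction _ (fun x : ℝ => x = 1 ∨ x = -1)
  · intro a b ha hb
    rcases ha with ha | ha <;> rcases hb with hb | hb <;> rw [ha, hb] <;> norm_num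
  · exact Or.inl rfl
  · intro p _
    show (- σ p) ^ (n.factorization p) = 1 ∨ (- σ p) ^ (n.factorization p) = -1
    rcases hσ p with h | h
    · rw [h]; exact neg_one_pow_eq_or ℝ _
    · rw [h]; left; simp

/-- Exact relations on a sparse set of primes. -/
theorem exact_on (σ : ℕ → ℝ) (hσ : ∀ p, σ p = 1 ∨ σ p = -1) (P : Set ℕ) (hP : ∀ p ∈ P, p.Prime)
    (hs : Summable (P.indicator (fun p : ℕ => (1 : ℝ) / p))) (f0 : ℕ → ℝ)
    (hf0 : ∀ n, f0 n = 1 ∨ f0 n = -1) (hd : ∀ p : ℕ, p.Prime → DZ {n | f0 (p * n) ≠ σ p * f0 n}) :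
    ∃ f : ℕ → ℝ, MultOn σ P f ∧ AlmostMult σ f ∧ DZ {n | f n ≠ f0 n} := by
  classical
  have hσ2 : ∀ p, σ p * σ p = 1 := fun p => by
    rcases hσ p with h | h <;> rw [h] <;> norm_num
  have hτ2 : ∀ n, exTau σ n * exTau σ n = 1 := fun n => by
    rcases exTau_pm σ hσ n with h | h <;> rw [h] <;> norm_num
  set g0 : ℕ → ℝ := fun n => exTau σ n * f0 n with hg0
  have hg0pm : ∀ n, g0 n = 1 ∨ g0 n = -1 := by
    intro n; simp only [hg0]
    rcases exTau_pm σ hσ n with a | a <;> rcases hf0 n with b | b <;> rw [a, b] <;> norm_num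
  have hg0p : ∀ p : ℕ, p.Prime → DZ {n | g0 (p * n) ≠ - g0 n} := by
    intro p hp
    refine (hd p hp).mono' ?_
    intro n hn hne hcon
    apply hne
    simp only [hg0]
    rw [hcon, exTau_mul σ p hp n hn]
    linear_combination (-(exTau σ n * f0 n)) * hσ2 p
  set g : ℕ → ℝ := fun n => (-1) ^ expo P n * g0 (rough P n) with hg
  have hgpm : ∀ n, g n = 1 ∨ g n = -1 := by
    intro n; simp only [hg]
    rcases neg_one_pow_eq_or ℝ (expo P n) with a | a <;>
      rcases hg0pm (rough P n) with b | b <;> rw [a, b] <;> norm_num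
  have hgg0 : DZ {n | g n ≠ g0 n} := by
    refine (correct P hP hs g0 (fun p hp => hg0p p (hP p hp))).mono ?_
    intro n hn hcon
    exact hn hcon.symm
  have hfeq : DZ {n | exTau σ n * g n ≠ f0 n} := by
    refine hgg0.mono ?_
    intro n hn hcon
    apply hn
    have hcon' : g n = g0 n := hcon
    rw [hcon']
    simp only [hg0]
    rw [← mul_assoc, hτ2, one_mul]
  have hpm : ∀ n, exTau σ n * g n = 1 ∨ exTau σ n * g n = -1 := by
    intro n
    rcases exTau_pm σ hσ n with a | a <;> rcases hgpm n with b | b <;> rw [a, b] <;> norm_num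
  refine ⟨fun n => exTau σ n * g n, ⟨hpm, ?_⟩, ⟨hpm, ?_⟩, hfeq⟩
  · intro p hp n hn
    simp only [hg]
    rw [rough_mul P p hp (hP p hp) n hn, expo_mul P p hp (hP p hp) n hn, pow_succ,
      exTau_mul σ p (hP p hp) n hn]
    ring
  · intro p hp
    apply densityZero_of_DZ
    refine ((hfeq.preimage_mul p hp.one_le).union ((hd p hp).union hfeq)).mono ?_
    intro n hn
    by_contra hcon
    simp only [Set.mem_union, Set.mem_ofPred_eq, not_or, not_not] at hcon
    apply hn
    show exTau σ (p * n) * g (p * n) = σ p * (exTau σ n * g n)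
    rw [hcon.1, hcon.2.1, hcon.2.2]

end Pool.Agent.Helper8.Classify
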