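import Mathlib
import Pool.Agent.Helper8.Classify.Joint

/-!
# From natural to logarithmic averages
-/

namespace Pool.Agent.Helper8.Classify

open Finset Filter Topology Asymptotics

/-- partial summation -/
theorem log_sum_eq (a : ℕ → ℝ) (N : ℕ) :
    ∑ n ∈ Ioc 0 N, a n / n = (∑ n ∈ Ioc 0 N, a n) / N
      + ∑ n ∈ range N, ((∑ k ∈ Ioc 0 n, a k) / n) * (1 / ((n : ℝ) + 1)) := by
  induction N with
  | zero => simp
  | succ N ih =>
    rw [Finset.sum_Ioc_succ_top (Nat.zero_le N), ih, Finset.sum_range_succ,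
      Finset.sum_Ioc_succ_top (Nat.zero_le N) (fun n => a n)]
    rcases Nat.eq_zero_or_pos N with h | h
    · subst h; simp
    · have h1 : (N : ℝ) ≠ 0 := by positivity
      have h2 : (N : ℝ) + 1 ≠ 0 := by positivity
      push_cast
      field_simp
      ring

theorem harmonic_div_log :
    Tendsto (fun N : ℕ => (∑ n ∈ range N, 1 / ((n : ℝ) + 1)) / Real.log N) atTop (𝓝 1) := by
  have h1 : Tendsto (fun N : ℕ => ((harmonic N : ℝ) - Real.log N) / Real.log N) atTop (𝓝 0) :=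
    Real.tendsto_harmonic_sub_log.div_atTop
      (Real.tendsto_log_atTop.comp tendsto_natCast_atTop_atTop)
  have h2 : Tendsto (fun N : ℕ => ((harmonic N : ℝ) - Real.log N) / Real.log N + 1) atTop
      (𝓝 (0 + 1)) := h1.add_const 1
  rw [zero_add] at h2
  refine h2.congr' ?_
  filter_upwards [eventually_gt_atTop 1] with N hN
  have h3 : 0 < Real.log N := Real.log_pos (by exact_mod_cast hN)
  have h4 : ((harmonic N : ℚ) : ℝ) = ∑ n ∈ range N, 1 / ((n : ℝ) + 1) := by
    simp [harmonic, one_div]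
  rw [h4]
  field_simp
  ring

/-- From natural to logarithmic averages. -/
theorem log_of_nat (a : ℕ → ℝ) (L : ℝ)
    (h : Tendsto (fun N : ℕ => (∑ n ∈ Ioc 0 N, a n) / N) atTop (𝓝 L)) :
    Tendsto (fun N : ℕ => (∑ n ∈ Ioc 0 N, a n / n) / Real.log N) atTop (𝓝 L) := by
  set u : ℕ → ℝ := fun N => (∑ n ∈ Ioc 0 N, a n) / N with hu
  have hlog : Tendsto (fun N : ℕ => Real.log N) atTop atTop :=
    Real.tendsto_log_atTop.comp tendsto_natCast_atTop_atTop
  have hH := harmonic_div_log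
  have hlp : ∀ᶠ N : ℕ in atTop, 0 < Real.log N := hlog.eventually_gt_atTop 0
  have hHt : Tendsto (fun N : ℕ => ∑ n ∈ range N, 1 / ((n : ℝ) + 1)) atTop atTop := by
    have h1 : Tendsto (fun N : ℕ => (∑ n ∈ range N, 1 / ((n : ℝ) + 1)) / Real.log N * Real.log N)
        atTop atTop := Tendsto.pos_mul_atTop one_pos hH hlog
    refine h1.congr' ?_
    filter_upwards [hlp] with N hN
    field_simp
  have hlo : (fun N : ℕ => ∑ n ∈ range N, (u n - L) * (1 / ((n : ℝ) + 1))) =o[atTop]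
      fun N : ℕ => ∑ n ∈ range N, 1 / ((n : ℝ) + 1) := by
    apply Asymptotics.IsLittleO.sum_range _ (fun n => by positivity) hHt
    have h2 : (fun n : ℕ => u n - L) =o[atTop] (fun _ : ℕ => (1 : ℝ)) := by
      rw [isLittleO_one_iff]
      simpa using h.sub_const L
    simpa using h2.mul_isBigO (isBigO_refl (fun n : ℕ => 1 / ((n : ℝ) + 1)) atTop)
  have h3 : Tendsto (fun N : ℕ => (∑ n ∈ range N, (u n - L) * (1 / ((n : ℝ) + 1)))
      / (∑ n ∈ range N, 1 / ((n : ℝ) + 1))) atTop (𝓝 0) := hlo.tendsto_div_nhds_zero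
  have h4 : Tendsto (fun N : ℕ => u N / Real.log N) atTop (𝓝 0) := h.div_atTop hlog
  have h5 : Tendsto (fun N : ℕ => u N / Real.log N
      + L * ((∑ n ∈ range N, 1 / ((n : ℝ) + 1)) / Real.log N)
      + ((∑ n ∈ range N, (u n - L) * (1 / ((n : ℝ) + 1)))
          / (∑ n ∈ range N, 1 / ((n : ℝ) + 1)))
        * ((∑ n ∈ range N, 1 / ((n : ℝ) + 1)) / Real.log N)) atTop (𝓝 (0 + L * 1 + 0 * 1)) :=
    (h4.add (hH.const_mul L)).add (h3.mul hH)
  rw [zero_add, mul_one, zero_mul, add_zero] at h5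
  refine h5.congr' ?_
  filter_upwards [hlp, hHt.eventually_gt_atTop 0] with N h6 h7
  have h8 : ∑ n ∈ range N, (u n - L) * (1 / ((n : ℝ) + 1))
      = ∑ n ∈ range N, u n * (1 / ((n : ℝ) + 1)) - L * ∑ n ∈ range N, 1 / ((n : ℝ) + 1) := by
    rw [Finset.mul_sum, ← Finset.sum_sub_distrib]
    exact Finset.sum_congr rfl fun n _ => by ring
  rw [log_sum_eq a N, h8]
  simp only [hu]
  field_simp
  ring

end Pool.Agent.Helper8.Classify
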